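import Pool.Agent.TH744.Chain.Main

set_option autoImplicit false

/-!
# Surgeries on chain links with any number of components

## The links

Let `n ≥ 3`.  Put `n` round circles, indexed by `ZMod n`, in the plane on a ring, in clockwise
cyclic order around the origin, each oriented clockwise, such that circle `i` meets circle
`i + 1` in two points (the outer crossing, far from the origin, and the inner crossing) and no
others.  The two crossings of the circles `i`, `i + 1` form a clasp; they have the same sign:

* `e i = true`: both crossings are positive (linking number `+1`); at the outer crossing `i`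
  passes over `i + 1` and at the inner crossing `i + 1` passes over `i`;
* `e i = false`: both crossings are negative (linking number `-1`); at the outer crossing `i + 1`
  passes over `i` and at the inner crossing `i` passes over `i + 1`.

With `k` positive clasps this is, up to mirror image, the `n`-chain link `C(n, -k)` of Neumann and
Reid; the links `C(n, -k)` with `0 ≤ k ≤ n` are hyperbolic except when `k ≤ 2` and `n - k ≤ 2`.
For `n = 3`, `k = 0` it is the magic link `6^3_1`, for `n = 4`, `k = 1` the link `8^4_2` and for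
`n = 5`, `k = 2` the minimally twisted 5-chain link.

Each circle passes under its neighbours at exactly two crossings; `o i` and `m i` are the
meridians of the outer and of the inner arc of circle `i`.
-/

universe u

namespace Pool.Agent.Results.MP_3d425c_gt.ChainLinks

/-- A nontrivial group is left-orderable if it carries a strict total order that is invariant
under left multiplication. -/
def LeftOrderable (G : Type*) [Group G] : Prop :=
  Nontrivial G ∧ ∃ lt : G → G → Prop, IsStrictTotalOrder G lt ∧
    ∀ a b c : G, lt a b ↔ lt (c * a) (c * b)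

section diagram
variable {n : ℕ}

/-- Meridian of the outer arc of circle `i`. -/
def o (i : ZMod n) : FreeGroup (ZMod n × Bool) := FreeGroup.of (i, false)

/-- Meridian of the inner arc of circle `i`. -/
def m (i : ZMod n) : FreeGroup (ZMod n × Bool) := FreeGroup.of (i, true)

/-- The Wirtinger relator of a crossing of sign `ε` with over arc `c`, incoming under arc `a`
and outgoing under arc `b`. -/
def crossing (ε : ℤ) (c a b : FreeGroup (ZMod n × Bool)) : FreeGroup (ZMod n × Bool) :=
  c ^ (-ε) * a * c ^ ε * b⁻¹

/-- The relator of the outer crossing of the circles `i`, `i + 1`. -/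
def outer (e : ZMod n → Bool) (i : ZMod n) : FreeGroup (ZMod n × Bool) :=
  if e i then crossing 1 (o i) (m (i + 1)) (o (i + 1)) else crossing (-1) (o (i + 1)) (o i) (m i)

/-- The relator of the inner crossing of the circles `i`, `i + 1`. -/
def inner (e : ZMod n → Bool) (i : ZMod n) : FreeGroup (ZMod n × Bool) :=
  if e i then crossing 1 (m (i + 1)) (o i) (m i) else crossing (-1) (m i) (m (i + 1)) (o (i + 1))

/-- The (preferred, 0-framed) longitude of circle `i` that starts on the outer arc: the product
of `c ^ ε` over the two crossings where the circle passes under (first the one with circle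
`i + 1`, then the one with circle `i - 1`). -/
def longitude (e : ZMod n → Bool) (i : ZMod n) : FreeGroup (ZMod n × Bool) :=
  (if e i then m (i + 1) else (o (i + 1))⁻¹) * (if e (i - 1) then o (i - 1) else (m (i - 1))⁻¹)

/-- The fundamental group of the closed 3-manifold obtained from the chain link with clasps `e`
by surgery with slope `p i / q i` on component `i`. -/
abbrev SurgeryGroup (e : ZMod n → Bool) (p q : ZMod n → ℤ) : Type :=
  PresentedGroup (Set.range (outer e) ∪ Set.range (inner e) ∪
    Set.range fun i => o i ^ p i * longitude e i ^ q i)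

/-- The number of negative slopes minus the number of positive clasps. -/
def D [NeZero n] (e : ZMod n → Bool) (r : ZMod n → ℚ) : ℤ :=
  (Finset.univ.filter fun i => r i < 0).card - (Finset.univ.filter fun i => e i = true).card

/-- The region of slopes. -/
def Region [NeZero n] (e : ZMod n → Bool) (r : ZMod n → ℚ) : Prop :=
  (|D e r| = 1 ∧ ∀ i, 1 ≤ |r i| ∧ (2 ≤ |r i| ∨ r (i - 1) * r i < 0)) ∨
  (D e r = 0 ∧ (∀ i, 2 ≤ |r i|) ∧ (∃ i, r i ≠ 2) ∧ ∃ i, r i ≠ -2)

end diagram

section proof
variable {n : ℕ}

open Pool.Agent.TH744.Chain (tw del Cond Dia Dat)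

theorem tw_eq_sum (s t : ℕ → Bool) (n : ℕ) : tw s t n = ∑ i ∈ Finset.range n, del (s i) (t i) := by
  induction n with
  | zero => rfl
  | succ n ih => rw [Finset.sum_range_succ, ← ih]; rfl

theorem sum_cast [NeZero n] (F : ZMod n → ℤ) :
    ∑ i ∈ Finset.range n, F (i : ZMod n) = ∑ x, F x := by
  symm
  refine Finset.sum_bij' (fun x _ => x.val) (fun i _ => (i : ZMod n)) ?_ ?_ ?_ ?_ ?_
  · intro x _; exact Finset.mem_range.mpr x.val_lt
  · intro i _; exact Finset.mem_univ _
  · intro x _; exact ZMod.natCast_zmod_val x
  · intro i hi; exact ZMod.val_cast_of_lt (Finset.mem_range.mp hi)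
  · intro x _; rw [ZMod.natCast_zmod_val]

theorem tw_eq [NeZero n] {e : ZMod n → Bool} {p q : ZMod n → ℤ} (hq : ∀ i, 1 ≤ q i)
    (hp : ∀ i, p i ≠ 0) :
    tw (fun i : ℕ => decide (0 < p (i : ZMod n))) (fun i : ℕ => !e (i : ZMod n)) n =
      D e (fun i => (p i : ℚ) / q i) := by
  have hs : ∀ i, (p i : ℚ) / q i < 0 ↔ p i < 0 := fun i => Pool.Agent.TH744.LS.slope_neg (hq i)
  rw [tw_eq_sum]
  have h1 := sum_cast (n := n) (fun x => del (decide (0 < p x)) (!e x))
  rw [h1]
  unfold D
  rw [Finset.card_filter, Finset.card_filter]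
  push_cast
  rw [← Finset.sum_sub_distrib]
  refine Finset.sum_congr rfl fun x _ => ?_
  unfold del
  rcases lt_trichotomy (p x) 0 with h | h | h
  · have h2 : ¬ 0 < p x := not_lt.mpr h.le
    have h3 : (p x : ℚ) / q x < 0 := (hs x).mpr h
    cases e x <;> simp [h2, h3]
  · exact absurd h (hp x)
  · have h3 : ¬ (p x : ℚ) / q x < 0 := fun h4 => absurd ((hs x).mp h4) (not_lt.mpr h.le)
    cases e x <;> simp [h, h3]

theorem abs_slope {a p q : ℤ} (hq : 1 ≤ q) (ha : 1 ≤ a) (h : (a : ℚ) ≤ |(p : ℚ) / q|) :
    p ≠ 0 ∧ a * q ≤ (if decide (0 < p) then p else -p) := by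
  have q0 : (0 : ℚ) < q := by exact_mod_cast (by omega : (0 : ℤ) < q)
  rw [abs_div, abs_of_pos q0, le_div_iff₀ q0] at h
  have h1 : a * q ≤ |p| := by exact_mod_cast h
  have h2 : 1 ≤ a * q := by nlinarith
  refine ⟨fun h3 => by rw [h3] at h1; simp at h1; omega, ?_⟩
  by_cases h3 : 0 < p
  · rw [abs_of_pos h3] at h1; simpa [h3] using h1
  · rw [abs_of_nonpos (by omega)] at h1; simpa [h3] using h1

theorem cond_of_region [NeZero n] {e : ZMod n → Bool} {p q : ZMod n → ℤ} (hq : ∀ i, 1 ≤ q i)
    (hr : Region e (fun i => (p i : ℚ) / q i)) :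
    Cond n (fun i : ℕ => !e (i : ZMod n)) (fun i : ℕ => decide (0 < p (i : ZMod n)))
      (fun i : ℕ => if decide (0 < p (i : ZMod n)) then p (i : ZMod n) else - p (i : ZMod n))
      (fun i : ℕ => q (i : ZMod n)) := by
  rcases hr with ⟨hD, hp⟩ | ⟨hD, hp, h2, h2'⟩
  · have h1 : ∀ i, p i ≠ 0 := fun i =>
      (abs_slope (a := 1) (hq i) le_rfl (by simpa using (hp i).1)).1
    left
    rw [tw_eq hq h1]
    refine ⟨?_, fun i => ?_⟩
    · rcases abs_eq (zero_le_one' ℤ) |>.mp hD with h | h
      · exact Or.inl h
      · exact Or.inr h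
    · obtain ⟨g1, g2⟩ := hp ((i + 1 : ℕ) : ZMod n)
      have k1 := (abs_slope (a := 1) (p := p ((i + 1 : ℕ) : ZMod n))
        (hq ((i + 1 : ℕ) : ZMod n)) le_rfl (by simpa using g1)).2
      by_cases hs : decide (0 < p (i : ZMod n)) = decide (0 < p ((i + 1 : ℕ) : ZMod n))
      · show (if decide (0 < p (i : ZMod n)) = decide (0 < p ((i + 1 : ℕ) : ZMod n)) then (2 : ℤ)
          else 1) * _ ≤ _
        rw [if_pos hs]
        rcases g2 with g2 | g2
        · exact (abs_slope (a := 2) (p := p ((i + 1 : ℕ) : ZMod n))
            (hq ((i + 1 : ℕ) : ZMod n)) (by norm_num) (by simpa using g2)).2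
        · exfalso
          have e1 : ((i + 1 : ℕ) : ZMod n) - 1 = (i : ZMod n) := by push_cast; ring
          rw [e1] at g2
          have q1 : (0 : ℚ) < q (i : ZMod n) := by
            exact_mod_cast (by have := hq (i : ZMod n); omega : (0 : ℤ) < q (i : ZMod n))
          have q2 : (0 : ℚ) < q ((i + 1 : ℕ) : ZMod n) := by
            exact_mod_cast (by have := hq ((i + 1 : ℕ) : ZMod n); omega :
              (0 : ℤ) < q ((i + 1 : ℕ) : ZMod n))
          rcases mul_neg_iff.mp g2 with ⟨a1, a2⟩ | ⟨a1, a2⟩
          · have b1 : 0 < p (i : ZMod n) := by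
              have := (div_pos_iff_of_pos_right q1).mp a1; exact_mod_cast this
            have b2 : p ((i + 1 : ℕ) : ZMod n) < 0 :=
              (Pool.Agent.TH744.LS.slope_neg (hq _)).mp a2
            have b3 : ¬ 0 < p ((i + 1 : ℕ) : ZMod n) := not_lt.mpr b2.le
            rw [decide_eq_true b1, decide_eq_false b3] at hs
            exact absurd hs (by simp)
          · have b1 : 0 < p ((i + 1 : ℕ) : ZMod n) := by
              have := (div_pos_iff_of_pos_right q2).mp a2; exact_mod_cast this
            have b2 : p (i : ZMod n) < 0 :=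
              (Pool.Agent.TH744.LS.slope_neg (hq _)).mp a1
            have b3 : ¬ 0 < p (i : ZMod n) := not_lt.mpr b2.le
            rw [decide_eq_true b1, decide_eq_false b3] at hs
            exact absurd hs (by simp)
      · show (if decide (0 < p (i : ZMod n)) = decide (0 < p ((i + 1 : ℕ) : ZMod n)) then (2 : ℤ)
          else 1) * _ ≤ _
        rw [if_neg hs]
        exact k1
  · have h1 : ∀ i, p i ≠ 0 := fun i =>
      (abs_slope (a := 2) (hq i) (by norm_num) (by simpa using hp i)).1
    right
    rw [tw_eq hq h1]
    refine ⟨hD, fun i => (abs_slope (a := 2) (hq _) (by norm_num) (by simpa using hp _)).2, ?_⟩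
    intro hs
    by_contra hcon
    rw [not_exists] at hcon
    have hs' : ∀ i : ℕ, decide (0 < p (i : ZMod n)) = decide (0 < p 0) := by
      intro i
      induction i with
      | zero => simp
      | succ i ih => rw [← ih]; exact (hs i).symm
    have hle : ∀ x : ZMod n, (if decide (0 < p x) then p x else - p x) = 2 * q x := by
      intro x
      have k1 := (abs_slope (a := 2) (hq x) (by norm_num) (by simpa using hp x)).2
      have k2 := hcon (x.val + (n - 1))
      have e1 : ((x.val + (n - 1) + 1 : ℕ) : ZMod n) = x := by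
        have hn : 1 ≤ n := NeZero.one_le
        have e2 : x.val + (n - 1) + 1 = x.val + n := by omega
        rw [e2]; push_cast; rw [ZMod.natCast_zmod_val, ZMod.natCast_self, add_zero]
      have k3 : ¬ 2 * q x < (if decide (0 < p x) then p x else - p x) := by
        have k4 : ¬ 2 * q ((x.val + (n - 1) + 1 : ℕ) : ZMod n) <
          (if decide (0 < p ((x.val + (n - 1) + 1 : ℕ) : ZMod n))
            then p ((x.val + (n - 1) + 1 : ℕ) : ZMod n)
            else - p ((x.val + (n - 1) + 1 : ℕ) : ZMod n)) := k2
        rwa [e1] at k4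
      omega
    have hsx : ∀ x : ZMod n, decide (0 < p x) = decide (0 < p 0) := by
      intro x
      have := hs' x.val
      rwa [ZMod.natCast_zmod_val] at this
    have qne : ∀ x : ZMod n, (q x : ℚ) ≠ 0 := by
      intro x
      have : q x ≠ 0 := by have := hq x; omega
      exact_mod_cast this
    by_cases h0 : 0 < p 0
    · obtain ⟨x, hx⟩ := h2
      apply hx
      have k1 := hle x
      rw [hsx x, decide_eq_true h0] at k1
      have k2 : p x = 2 * q x := by simpa using k1
      show (p x : ℚ) / q x = 2
      rw [k2]; push_cast; rw [mul_div_assoc, div_self (qne x), mul_one]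
    · obtain ⟨x, hx⟩ := h2'
      apply hx
      have k1 := hle x
      rw [hsx x, decide_eq_false h0] at k1
      have k2 : - p x = 2 * q x := by simpa using k1
      have k3 : p x = -2 * q x := by linarith
      show (p x : ℚ) / q x = -2
      rw [k3]; push_cast; rw [mul_div_assoc, div_self (qne x), mul_one]

theorem hom_trivial [NeZero n] (hn : 1 ≤ n) {e : ZMod n → Bool} {p q : ZMod n → ℤ}
    (hq : ∀ i, 1 ≤ q i) (hr : Region e (fun i => (p i : ℚ) / q i))
    (H : Type*) [Group H] (hH : LeftOrderable H)
    (f : SurgeryGroup e p q →* H) (g : SurgeryGroup e p q) : f g = 1 := by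
  let φ : FreeGroup (ZMod n × Bool) →* H := f.comp (PresentedGroup.mk _)
  have rel : ∀ w ∈ (Set.range (outer e) ∪ Set.range (inner e) ∪
    Set.range fun i => o i ^ p i * longitude e i ^ q i), φ w = 1 := by
    intro w hw
    show f (PresentedGroup.mk _ w) = 1
    rw [PresentedGroup.one_of_mem hw, map_one]
  have h1 : ∀ i, φ (outer e i) = 1 := fun i => rel _ (Or.inl (Or.inl ⟨i, rfl⟩))
  have h2 : ∀ i, φ (inner e i) = 1 := fun i => rel _ (Or.inl (Or.inr ⟨i, rfl⟩))
  have h3 : ∀ i, φ (o i ^ p i * longitude e i ^ q i) = 1 := fun i => rel _ (Or.inr ⟨i, rfl⟩)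
  have dia : Dia n (fun i : ℕ => φ (o (i : ZMod n))) (fun i : ℕ => φ (m (i : ZMod n)))
      (fun i : ℕ => e (i : ZMod n)) (fun i : ℕ => p (i : ZMod n))
      (fun i : ℕ => q (i : ZMod n)) := by
    refine ⟨fun i => ?_, fun i => ?_, fun i => ?_, fun i => ?_, fun i => ?_, fun i => ?_⟩
    · have := h1 (i : ZMod n)
      unfold outer at this
      show if e (i : ZMod n) then _ else _
      split_ifs at this ⊢
      · simpa only [crossing, map_mul, map_inv, map_zpow, zpow_neg, zpow_one, Nat.cast_add,
          Nat.cast_one] using this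
      · simpa only [crossing, map_mul, map_inv, map_zpow, zpow_neg, zpow_one, neg_neg,
          Nat.cast_add, Nat.cast_one] using this
    · have := h2 (i : ZMod n)
      unfold inner at this
      show if e (i : ZMod n) then _ else _
      split_ifs at this ⊢
      · simpa only [crossing, map_mul, map_inv, map_zpow, zpow_neg, zpow_one, Nat.cast_add,
          Nat.cast_one] using this
      · simpa only [crossing, map_mul, map_inv, map_zpow, zpow_neg, zpow_one, neg_neg,
          Nat.cast_add, Nat.cast_one] using this
    · have := h3 ((i : ZMod n) + 1)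
      unfold longitude at this
      have e1 : (i : ZMod n) + 1 - 1 = (i : ZMod n) := by ring
      have e2 : (i : ZMod n) + 1 + 1 = ((i + 2 : ℕ) : ZMod n) := by push_cast; ring
      have e3 : (i : ZMod n) + 1 = ((i + 1 : ℕ) : ZMod n) := by push_cast; ring
      rw [e1, e2, e3] at this
      rw [map_mul, map_zpow, map_zpow, map_mul, apply_ite φ, apply_ite φ, map_inv, map_inv] at this
      exact this
    · show φ (o ((i + n : ℕ) : ZMod n)) = _
      rw [Nat.cast_add, ZMod.natCast_self, add_zero]
    · show e ((i + n : ℕ) : ZMod n) = _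
      rw [Nat.cast_add, ZMod.natCast_self, add_zero]
    · show p ((i + n : ℕ) : ZMod n) = _
      rw [Nat.cast_add, ZMod.natCast_self, add_zero]
  have fin : ∀ i : ℕ, φ (o (i : ZMod n)) = 1 ∧ φ (m (i : ZMod n)) = 1 := by
    classical
    obtain ⟨_, lt, hlt, hinv⟩ := hH
    let _ : LinearOrder H := linearOrderOfSTO lt
    have hinv' : ∀ a b c : H, a ≤ b ↔ c * a ≤ c * b := by
      intro a b c
      show (a = b ∨ lt a b) ↔ (c * a = c * b ∨ lt (c * a) (c * b))
      rw [mul_right_inj, ← hinv]
    obtain ⟨k1, k2⟩ := dia.dat.trivial hinv' hn (fun i => hq _) (cond_of_region hq hr)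
    intro i
    have k3 : φ (o (i : ZMod n)) = 1 := inv_eq_one.mp (k2 i)
    refine ⟨k3, ?_⟩
    have k4 := dia.m_eq i
    rw [k1, k3, mul_one] at k4
    exact k4
  have hf : f = 1 := by
    apply PresentedGroup.ext
    rintro ⟨i, b⟩
    show φ (FreeGroup.of (i, b)) = 1
    have k := fin i.val
    rw [ZMod.natCast_zmod_val] at k
    cases b
    · exact k.1
    · exact k.2
  rw [hf]; rfl

theorem not_lo {G : Type u} [Group G]
    (h : ∀ (H : Type u) [Group H], LeftOrderable H → ∀ f : G →* H, ∀ g, f g = 1) :
    ¬ LeftOrderable G := by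
  intro hG
  obtain ⟨a, b, hab⟩ := hG.1
  have key := h G hG (MonoidHom.id _)
  have h1 := key a
  have h2 := key b
  simp only [MonoidHom.id_apply] at h1 h2
  exact hab (by rw [h1, h2])

end proof

/-- Surgeries on the `n`-chain links with slopes in the region: the fundamental group is not
left-orderable, and every homomorphism to a left-orderable group is trivial. -/
theorem result (n : ℕ) [NeZero n] (hn : 3 ≤ n) (e : ZMod n → Bool) (p q : ZMod n → ℤ)
    (hq : ∀ i, 1 ≤ q i) (hr : Region e (fun i => (p i : ℚ) / q i)) :
    ¬ LeftOrderable (SurgeryGroup e p q) ∧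
    ∀ (H : Type u) [Group H], LeftOrderable H → ∀ f : SurgeryGroup e p q →* H, ∀ g, f g = 1 :=
  ⟨not_lo fun H _ hH f g => hom_trivial (by omega) hq hr H hH f g,
    fun H _ hH f g => hom_trivial (by omega) hq hr H hH f g⟩

end Pool.Agent.Results.MP_3d425c_gt.ChainLinks
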