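import Pool.Agent.TH744.LS.Sym

set_option autoImplicit false

/-!
# Surgeries on the hyperbolic 4-chain link and on two-bridge L-space links

## The link

Four round circles `0, 1, 2, 3` in the plane, in clockwise cyclic order around the origin, each
oriented clockwise, such that circle `i` meets circle `i + 1` (mod 4) in two points (the outer
and the inner crossing) and no others.  The two crossings of circles `i, i + 1` have the same
sign: it is negative for `i = 0, 1, 3` (at the outer crossing `i + 1` passes over `i`, at the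
inner crossing `i` passes over `i + 1`) and positive for `i = 2` (at the outer crossing `2`
passes over `3`, at the inner crossing `3` passes over `2`).  Up to mirror image this is the
minimally twisted hyperbolic 4-chain link `8^4_2`, the link `C(4,-1)` of Neumann and Reid.

`o i` and `n i` are the meridians of the outer and of the inner arc of circle `i`.

## The theorem

`Region` is a region of the space of slopes `(r 0, r 1, r 2, r 3)`; in it the slopes of one pair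
of opposite components are at least `-1` and those of the other pair are negative.  For slopes
in the region every homomorphism from the fundamental group of the surgery to a left-orderable
group is trivial.  The slopes `r 1 = -1/a`, `r 3 = -1/b` give the surgeries on the two-bridge links
`C(2a, 1, 2b)` with both slopes at least `a + b - 1`; this case is also stated and proved for
the usual presentation of the group of the two-bridge link (theorem `twoBridge`).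
-/

universe u

namespace Pool.Agent.Results.MP_3d425c_gt.FourChainLink

open Pool.Agent.TH744.LS (Rel)

/-- A nontrivial group is left-orderable if it carries a strict total order that is invariant
under left multiplication. -/
def LeftOrderable (G : Type*) [Group G] : Prop :=
  Nontrivial G ∧ ∃ lt : G → G → Prop, IsStrictTotalOrder G lt ∧
    ∀ a b c : G, lt a b ↔ lt (c * a) (c * b)

/-- Meridian of the outer arc of circle `i`. -/
def o (i : Fin 4) : FreeGroup (Fin 4 × Bool) := FreeGroup.of (i, false)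

/-- Meridian of the inner arc of circle `i`. -/
def n (i : Fin 4) : FreeGroup (Fin 4 × Bool) := FreeGroup.of (i, true)

/-- The Wirtinger relator of a crossing of sign `ε` with over arc `c`, incoming under arc `a`
and outgoing under arc `b`. -/
def crossing (ε : ℤ) (c a b : FreeGroup (Fin 4 × Bool)) : FreeGroup (Fin 4 × Bool) :=
  c ^ (-ε) * a * c ^ ε * b⁻¹

/-- The Wirtinger relators of the 8 crossings: outer and inner crossing of the circles
`0, 1`, of `1, 2`, of `2, 3` and of `3, 0`. -/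
def crossings : Set (FreeGroup (Fin 4 × Bool)) :=
  {crossing (-1) (o 1) (o 0) (n 0), crossing (-1) (n 0) (n 1) (o 1),
    crossing (-1) (o 2) (o 1) (n 1), crossing (-1) (n 1) (n 2) (o 2),
    crossing 1 (o 2) (n 3) (o 3), crossing 1 (n 3) (o 2) (n 2),
    crossing (-1) (o 0) (o 3) (n 3), crossing (-1) (n 3) (n 0) (o 0)}

/-- The (preferred, 0-framed) longitude of circle `i` that starts on the outer arc: the product
of `c ^ ε` over the two crossings where the circle passes under. -/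
def longitude : Fin 4 → FreeGroup (Fin 4 × Bool) :=
  ![(o 1)⁻¹ * (n 3)⁻¹, (o 2)⁻¹ * (n 0)⁻¹, n 3 * (n 1)⁻¹, (o 0)⁻¹ * o 2]

/-- The fundamental group of the closed 3-manifold obtained from the 4-chain link by surgery
with slope `p i / q i` on component `i`. -/
abbrev SurgeryGroup (p q : Fin 4 → ℤ) : Type :=
  PresentedGroup (crossings ∪ Set.range fun i => o i ^ p i * longitude i ^ q i)

/-- The region of slopes. -/
def Region (r : Fin 4 → ℚ) : Prop :=
  -1 ≤ r 0 ∧ -1 ≤ r 2 ∧ r 1 < 0 ∧ r 3 < 0 ∧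
    ((0 ≤ r 0 ∧ 0 ≤ r 2) ∨
      (-1 ≤ max (r 1) (r 3) ∧
        (1 ≤ (r 0 + 1) * (r 2 + 1) ∨ -2 - (⌊max (r 0) (r 2)⌋ : ℚ) ≤ min (r 1) (r 3))))

/-- Meridians of the two-bridge link. -/
def X : FreeGroup (Fin 2) := FreeGroup.of 0

/-- Meridians of the two-bridge link. -/
def Y : FreeGroup (Fin 2) := FreeGroup.of 1

/-- `U = x y x ⋯ y x`, a word of length `2 a + 1`. -/
def U (a : ℕ) : FreeGroup (Fin 2) := (X * Y) ^ a * X

/-- `V = y x y ⋯ x y`, a word of length `2 a + 1`. -/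
def V (a : ℕ) : FreeGroup (Fin 2) := Y * (X * Y) ^ a

/-- `W = U V⁻¹ U V⁻¹ ⋯ U`, with `b` factors `V⁻¹`.  One has `W = x w x` where
`w = y ^ ε₁ x ^ ε₂ ⋯ y ^ ε_{α-1}` with `α = (2 a + 1) (2 b + 1) - 1` and
`ε_i = (-1) ^ ⌊i (2 b + 1) / α⌋`, the word of Schubert's presentation `x w = w x`. -/
def W (a b : ℕ) : FreeGroup (Fin 2) := U a * ((V a)⁻¹ * U a) ^ b

/-- The word `W` with `x, y` (so `U, V`) exchanged. -/
def W' (a b : ℕ) : FreeGroup (Fin 2) := V a * ((U a)⁻¹ * V a) ^ b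

/-- The fundamental group of the closed 3-manifold obtained by surgery with slopes
`p 0 / q 0`, `p 1 / q 1` on the two-bridge link `C(2a, 1, 2b)`, that is
`b((2a+1)(2b+1) - 1, -(2b+1))` up to mirror image.  The group of the link is
`⟨x, y | x W = W x⟩`; the preferred longitudes of the meridians `x`, `y` are
`W x ^ (-(a+b+1))`, `W' y ^ (-(a+b+1))`. -/
abbrev TwoBridgeSurgeryGroup (a b : ℕ) (p q : Fin 2 → ℤ) : Type :=
  PresentedGroup ({X * W a b * X⁻¹ * (W a b)⁻¹,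
    X ^ p 0 * (W a b * X ^ (-((a : ℤ) + b + 1))) ^ q 0,
    Y ^ p 1 * (W' a b * Y ^ (-((a : ℤ) + b + 1))) ^ q 1} : Set (FreeGroup (Fin 2)))

theorem eq_one_of_rel {H : Type*} [Group H] (hH : LeftOrderable H) {x T y S : H}
    {p q : Fin 4 → ℤ} (hq : ∀ i, 1 ≤ q i)
    (hr : Region (fun i => (p i : ℚ) / q i) ∨ Region (fun i => (p (i + 1) : ℚ) / q (i + 1)))
    (h : Rel x T y S p q) : x = 1 ∧ T = 1 ∧ y = 1 ∧ S = 1 := by
  classical
  obtain ⟨_, lt, hlt, hinv⟩ := hH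
  let _ : LinearOrder H := linearOrderOfSTO lt
  have hinv' : ∀ a b c : H, a ≤ b ↔ c * a ≤ c * b := by
    intro a b c
    show (a = b ∨ lt a b) ↔ (c * a = c * b ∨ lt (c * a) (c * b))
    rw [mul_right_inj, ← hinv]
  exact Pool.Agent.TH744.LS.rel_trivial hinv' hq hr h

theorem hom_trivial (p q : Fin 4 → ℤ) (hq : ∀ i, 1 ≤ q i)
    (hr : Region (fun i => (p i : ℚ) / q i) ∨ Region (fun i => (p (i + 1) : ℚ) / q (i + 1)))
    (H : Type*) [Group H] (hH : LeftOrderable H)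
    (f : SurgeryGroup p q →* H) (g : SurgeryGroup p q) : f g = 1 := by
  -- the images of the meridians of the arcs
  let φ : FreeGroup (Fin 4 × Bool) →* H := f.comp (PresentedGroup.mk _)
  have rel : ∀ w ∈ crossings ∪ Set.range fun i => o i ^ p i * longitude i ^ q i, φ w = 1 := by
    intro w hw
    show f (PresentedGroup.mk _ w) = 1
    rw [PresentedGroup.one_of_mem hw, map_one]
  have crs : ∀ (ε : ℤ) (c a b : FreeGroup (Fin 4 × Bool)), crossing ε c a b ∈ crossings →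
      φ b = φ c ^ (-ε) * φ a * φ c ^ ε := by
    intro ε c a b hw
    have h1 := rel _ (Or.inl hw)
    simp only [crossing, map_mul, map_inv, map_zpow] at h1
    exact (mul_inv_eq_one.mp h1).symm
  have r1 := crs (-1) (o 1) (o 0) (n 0) (by simp [crossings])
  have r2 := crs (-1) (n 0) (n 1) (o 1) (by simp [crossings])
  have r3 := crs (-1) (o 2) (o 1) (n 1) (by simp [crossings])
  have r4 := crs (-1) (n 1) (n 2) (o 2) (by simp [crossings])
  have r5 := crs 1 (o 2) (n 3) (o 3) (by simp [crossings])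
  have r6 := crs 1 (n 3) (o 2) (n 2) (by simp [crossings])
  have r7 := crs (-1) (o 0) (o 3) (n 3) (by simp [crossings])
  have r8 := crs (-1) (n 3) (n 0) (o 0) (by simp [crossings])
  have s0 : φ (o 0) ^ p 0 * ((φ (o 1))⁻¹ * (φ (n 3))⁻¹) ^ q 0 = 1 := by
    have : φ (o 0 ^ p 0 * ((o 1)⁻¹ * (n 3)⁻¹) ^ q 0) = 1 := rel _ (Or.inr ⟨0, rfl⟩)
    simpa only [map_mul, map_inv, map_zpow] using this
  have s1 : φ (o 1) ^ p 1 * ((φ (o 2))⁻¹ * (φ (n 0))⁻¹) ^ q 1 = 1 := by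
    have : φ (o 1 ^ p 1 * ((o 2)⁻¹ * (n 0)⁻¹) ^ q 1) = 1 := rel _ (Or.inr ⟨1, rfl⟩)
    simpa only [map_mul, map_inv, map_zpow] using this
  have s2 : φ (o 2) ^ p 2 * (φ (n 3) * (φ (n 1))⁻¹) ^ q 2 = 1 := by
    have : φ (o 2 ^ p 2 * (n 3 * (n 1)⁻¹) ^ q 2) = 1 := rel _ (Or.inr ⟨2, rfl⟩)
    simpa only [map_mul, map_inv, map_zpow] using this
  have s3 : φ (o 3) ^ p 3 * ((φ (o 0))⁻¹ * φ (o 2)) ^ q 3 = 1 := by
    have : φ (o 3 ^ p 3 * ((o 0)⁻¹ * o 2) ^ q 3) = 1 := rel _ (Or.inr ⟨3, rfl⟩)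
    simpa only [map_mul, map_inv, map_zpow] using this
  simp only [neg_neg, zpow_one, zpow_neg] at r1 r2 r3 r4 r5 r6 r7 r8
  have fin : φ (o 0) = 1 ∧ φ (o 1) = 1 ∧ φ (o 2) = 1 ∧ φ (o 3) = 1 := by
    clear_value φ
    generalize φ (o 0) = a0 at *
    generalize φ (o 1) = a1 at *
    generalize φ (o 2) = a2 at *
    generalize φ (o 3) = a3 at *
    generalize φ (n 0) = b0 at *
    generalize φ (n 1) = b1 at *
    generalize φ (n 2) = b2 at *
    generalize φ (n 3) = b3 at *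
    have comm : ∀ a w : H, a = w * a * w⁻¹ → Commute a w := by
      intro a w h
      show a * w = w * a
      calc a * w = w * a * w⁻¹ * w := by rw [← h]
        _ = w * a := by group
    have cinv : ∀ (a b : H) (i j : ℤ), Commute a b → a ^ i * b ^ j = 1 →
        a⁻¹ ^ i * b⁻¹ ^ j = 1 := by
      intro a b i j hc h
      rw [inv_zpow, inv_zpow, ← mul_inv_rev, ← (hc.zpow_zpow i j).eq, h, inv_one]
    -- the longitude of circle 1 is the inverse of `x y`
    have c1 : Commute a1 (b0 * a2) := by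
      refine comm _ _ ?_
      calc a1 = b0 * b1 * b0⁻¹ := r2
        _ = b0 * (a2 * a1 * a2⁻¹) * b0⁻¹ := by rw [← r3]
        _ = b0 * a2 * a1 * (b0 * a2)⁻¹ := by group
    have k1 : b0 * a2 = a0 * (a1⁻¹ * a2 * a1) := by
      calc b0 * a2 = a1⁻¹ * (a1 * (b0 * a2)) := by group
        _ = a1⁻¹ * ((b0 * a2) * a1) := by rw [c1.eq]
        _ = a0 * (a1⁻¹ * a2 * a1) := by rw [r1]; group
    -- the longitude of circle 2
    have c2 : Commute a2 (a3 * a1⁻¹) := by
      have h1 : Commute a2 (b1 * b3⁻¹) := by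
        refine comm _ _ ?_
        calc a2 = b1 * b2 * b1⁻¹ := r4
          _ = b1 * (b3⁻¹ * a2 * b3) * b1⁻¹ := by rw [← r6]
          _ = b1 * b3⁻¹ * a2 * (b1 * b3⁻¹)⁻¹ := by group
      have h2 : b1 * b3⁻¹ = a2 * (a3 * a1⁻¹)⁻¹ * a2⁻¹ := by
        have h3 : b3 = a2 * a3 * a2⁻¹ := by rw [r5]; group
        rw [h3, r3]; group
      have h4 : Commute a2 (a2 * (a3 * a1⁻¹)⁻¹ * a2⁻¹) := by rwa [h2] at h1
      have h5 : Commute a2 (a3 * a1⁻¹)⁻¹ := by
        have h6 := ((Commute.refl a2).inv_right.mul_right h4).mul_right (Commute.refl a2)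
        have h7 : a2⁻¹ * (a2 * (a3 * a1⁻¹)⁻¹ * a2⁻¹) * a2 = (a3 * a1⁻¹)⁻¹ := by group
        rwa [h7] at h6
      have := h5.inv_right
      rwa [inv_inv] at this
    have k2 : b3 * b1⁻¹ = a3 * a1⁻¹ := by
      have h3 : b3 = a2 * a3 * a2⁻¹ := by rw [r5]; group
      calc b3 * b1⁻¹ = a2 * (a3 * a1⁻¹) * a2⁻¹ := by rw [h3, r3]; group
        _ = (a3 * a1⁻¹) * a2 * a2⁻¹ := by rw [c2.eq]
        _ = a3 * a1⁻¹ := by group
    -- the longitude of circle 3
    have c3 : Commute a3 (a2⁻¹ * a0) := by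
      refine comm _ _ ?_
      calc a3 = a2⁻¹ * b3 * a2 := r5
        _ = a2⁻¹ * (a0 * a3 * a0⁻¹) * a2 := by rw [← r7]
        _ = a2⁻¹ * a0 * a3 * (a2⁻¹ * a0)⁻¹ := by group
    -- the longitude of circle 0
    have c0 : Commute a0 (b3 * a1) := by
      refine comm _ _ ?_
      calc a0 = b3 * b0 * b3⁻¹ := r8
        _ = b3 * (a1 * a0 * a1⁻¹) * b3⁻¹ := by rw [← r1]
        _ = b3 * a1 * a0 * (b3 * a1)⁻¹ := by group
    -- the relations in terms of `x = a0, T = a1⁻¹, y = a1⁻¹ a2 a1, S = a3⁻¹`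
    have cT : Commute a1⁻¹ (a0 * (a1⁻¹ * a2 * a1)) := by rw [← k1]; exact c1.inv_left
    have kx : a1⁻¹ * a2 * a1 * a1⁻¹ * (a1⁻¹ * a2 * a1)⁻¹ * a3⁻¹ = a1⁻¹ * b3⁻¹ := by
      have h1 : a1⁻¹ * a2 * a1 * a1⁻¹ * (a1⁻¹ * a2 * a1)⁻¹ = a0⁻¹ * a1⁻¹ * a0 := by
        calc a1⁻¹ * a2 * a1 * a1⁻¹ * (a1⁻¹ * a2 * a1)⁻¹
            = a0⁻¹ * ((a0 * (a1⁻¹ * a2 * a1)) * a1⁻¹) * (a1⁻¹ * a2 * a1)⁻¹ := by group
          _ = a0⁻¹ * (a1⁻¹ * (a0 * (a1⁻¹ * a2 * a1))) * (a1⁻¹ * a2 * a1)⁻¹ := by rw [cT.eq]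
          _ = a0⁻¹ * a1⁻¹ * a0 := by group
      have h2 : (b3 * a1)⁻¹ = a1⁻¹ * b3⁻¹ := by group
      have h3 : Commute a0 (a1⁻¹ * b3⁻¹) := by rw [← h2]; exact c0.inv_right
      calc a1⁻¹ * a2 * a1 * a1⁻¹ * (a1⁻¹ * a2 * a1)⁻¹ * a3⁻¹
          = a0⁻¹ * a1⁻¹ * a0 * a3⁻¹ := by rw [h1]
        _ = a0⁻¹ * ((a1⁻¹ * b3⁻¹) * a0) := by rw [r7]; group
        _ = a0⁻¹ * (a0 * (a1⁻¹ * b3⁻¹)) := by rw [h3.eq]
        _ = a1⁻¹ * b3⁻¹ := by group
    have ky : a1⁻¹ * a3⁻¹⁻¹ = a1⁻¹ * (a3 * a1⁻¹) * a1⁻¹⁻¹ := by group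
    have kS : a1⁻¹⁻¹ * (a1⁻¹ * a2 * a1)⁻¹ * a1⁻¹ * a0 = a2⁻¹ * a0 := by group
    have kyy : a1⁻¹ * a2 * a1 = a1⁻¹ * a2 * a1⁻¹⁻¹ := by group
    have R : Rel a0 a1⁻¹ (a1⁻¹ * a2 * a1) a3⁻¹ p q := by
      refine ⟨cT.eq, ?_, ?_, ?_, ?_, ?_, ?_, ?_⟩
      · rw [kx]
        have h2 : (b3 * a1)⁻¹ = a1⁻¹ * b3⁻¹ := by group
        rw [← h2]; exact c0.inv_right.eq
      · rw [ky, kyy]; exact Pool.Agent.TH744.LS.conj_comm' a1⁻¹ c2
      · rw [kS]; exact c3.inv_left.eq
      · rw [kx]; exact s0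
      · have h1 : a2⁻¹ * b0⁻¹ = (a0 * (a1⁻¹ * a2 * a1))⁻¹ := by rw [← k1]; group
        rw [h1] at s1
        have := cinv _ _ _ _ (cT.inv_inv) (by rw [inv_inv]; exact s1)
        simpa using this
      · rw [ky, kyy, ← k2]
        exact Pool.Agent.TH744.LS.conj_rel s2
      · rw [kS]
        have h1 : Commute a3 (a0⁻¹ * a2) := by
          have := c3.inv_right
          have h2 : (a2⁻¹ * a0)⁻¹ = a0⁻¹ * a2 := by group
          rwa [h2] at this
        have := cinv _ _ _ _ h1 s3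
        have h2 : (a0⁻¹ * a2)⁻¹ = a2⁻¹ * a0 := by group
        rwa [h2] at this
    obtain ⟨t0, t1, t2, t3⟩ := eq_one_of_rel hH hq hr R
    have u1 : a1 = 1 := by simpa using t1
    refine ⟨t0, u1, ?_, by simpa using t3⟩
    rw [u1] at t2; simpa using t2
  have hf : f = 1 := by
    obtain ⟨f0, f1, f2, f3⟩ := fin
    rw [f0, f1] at r1
    rw [f1, f2] at r3
    rw [f0, f3] at r7
    have g0 : φ (n 0) = 1 := by simpa using r1
    have g1 : φ (n 1) = 1 := by simpa using r3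
    have g3 : φ (n 3) = 1 := by simpa using r7
    rw [f2, g3] at r6
    have g2 : φ (n 2) = 1 := by simpa using r6
    apply PresentedGroup.ext
    rintro ⟨i, b⟩
    show φ (FreeGroup.of (i, b)) = 1
    fin_cases i <;> cases b
    · exact f0
    · exact g0
    · exact f1
    · exact g1
    · exact f2
    · exact g2
    · exact f3
    · exact g3
  rw [hf]; rfl

/-- The relations of the two-bridge link in a group give the relations of the 4-chain link. -/
theorem rel_of_twoBridge {H : Type*} [Group H] {x y : H} {a b : ℕ} {p q : Fin 2 → ℤ}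
    (hw : x * ((x * y) ^ a * x * ((y * (x * y) ^ a)⁻¹ * ((x * y) ^ a * x)) ^ b) =
      (x * y) ^ a * x * ((y * (x * y) ^ a)⁻¹ * ((x * y) ^ a * x)) ^ b * x)
    (s0 : x ^ p 0 * ((x * y) ^ a * x * ((y * (x * y) ^ a)⁻¹ * ((x * y) ^ a * x)) ^ b *
      x ^ (-((a : ℤ) + b + 1))) ^ q 0 = 1)
    (s1 : y ^ p 1 * (y * (x * y) ^ a * (((x * y) ^ a * x)⁻¹ * (y * (x * y) ^ a)) ^ b *
      y ^ (-((a : ℤ) + b + 1))) ^ q 1 = 1) :
    ∃ T S : H, Rel x T y S
      (fun i => ![p 0 - (a + b) * q 0, -1, p 1 - (a + b) * q 1, -1] i)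
      (fun i => ![q 0, a, q 1, b] i) := by
  set T := (x * y) ^ a with hT
  have cT : Commute T (x * y) := (Commute.refl (x * y)).pow_left a
  have hD : (y * T)⁻¹ * (T * x) = T⁻¹ * y⁻¹ * T * x := by group
  have hD' : (T * x)⁻¹ * (y * T) = (T⁻¹ * y⁻¹ * T * x)⁻¹ := by group
  rw [hD] at hw s0
  rw [hD', inv_pow] at s1
  set D := T⁻¹ * y⁻¹ * T * x with hDdef
  set S := D ^ b with hS
  have cS : Commute S D := (Commute.refl D).pow_left b
  have hT' : x⁻¹ * T * x = y * T * y⁻¹ := by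
    calc x⁻¹ * T * x = x⁻¹ * (T * (x * y)) * y⁻¹ := by group
      _ = x⁻¹ * ((x * y) * T) * y⁻¹ := by rw [cT.eq]
      _ = y * T * y⁻¹ := by group
  -- the longitude of `x`
  have kx : y * T * y⁻¹ * S = x⁻¹ * (T * x * S) := by rw [← hT']; group
  have cx : Commute x (x⁻¹ * (T * x * S)) := by
    refine (Commute.refl x).inv_right.mul_right ?_
    exact hw
  -- `y D S = S x`
  have hyD : y * D * S = S * x := by
    have h1 : y * T⁻¹ * y⁻¹ = x⁻¹ * T⁻¹ * x := by
      calc y * T⁻¹ * y⁻¹ = (y * T * y⁻¹)⁻¹ := by group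
        _ = (x⁻¹ * T * x)⁻¹ := by rw [hT']
        _ = _ := by group
    calc y * D * S = (y * T⁻¹ * y⁻¹) * T * x * S := by rw [hDdef]; group
      _ = x⁻¹ * T⁻¹ * (x * (T * x * S)) := by rw [h1]; group
      _ = x⁻¹ * T⁻¹ * (T * x * S * x) := by rw [hw]
      _ = S * x := by group
  have hy : y = (T * S⁻¹)⁻¹ * y * (T * S⁻¹) := by
    have h2 : y = S * x * S⁻¹ * D⁻¹ := by
      calc y = y * D * S * S⁻¹ * D⁻¹ := by group
        _ = S * x * S⁻¹ * D⁻¹ := by rw [hyD]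
    have h3 : S⁻¹ * D⁻¹ = D⁻¹ * S⁻¹ := cS.inv_inv.eq
    have h4 : x * D⁻¹ = T⁻¹ * y * T := by rw [hDdef]; group
    calc y = S * x * S⁻¹ * D⁻¹ := h2
      _ = S * x * (S⁻¹ * D⁻¹) := by group
      _ = S * (x * D⁻¹) * S⁻¹ := by rw [h3]; group
      _ = S * (T⁻¹ * y * T) * S⁻¹ := by rw [h4]
      _ = (T * S⁻¹)⁻¹ * y * (T * S⁻¹) := by group
  have cy : Commute y (T * S⁻¹) := by
    show y * (T * S⁻¹) = (T * S⁻¹) * y
    calc y * (T * S⁻¹) = (T * S⁻¹) * ((T * S⁻¹)⁻¹ * y * (T * S⁻¹)) := by group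
      _ = (T * S⁻¹) * y := by rw [← hy]
  -- change of framing
  have frame : ∀ (c l : H) (i j : ℤ), Commute c l →
      c ^ i * (c * l * c ^ (-((a : ℤ) + b + 1))) ^ j = 1 →
      c ^ (i - (a + b) * j) * l ^ j = 1 := by
    intro c l i j hc h
    have h1 : c * l * c ^ (-((a : ℤ) + b + 1)) = l * c ^ (-((a : ℤ) + b)) := by
      rw [hc.eq, mul_assoc, ← zpow_one_add]; congr 2; ring
    rw [h1, (hc.symm.zpow_right _).mul_zpow, ← zpow_mul,
      ((hc.zpow_left _).zpow_right _).symm.eq, ← mul_assoc, ← zpow_add] at h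
    rw [← h]; congr 2; ring
  refine ⟨T, S, cT.eq, ?_, cy.eq, cS.eq, ?_, ?_, ?_, ?_⟩
  · rw [kx]; exact cx.eq
  · rw [kx]
    refine frame x _ (p 0) (q 0) cx ?_
    rw [mul_inv_cancel_left]; exact s0
  · show T ^ (-1 : ℤ) * (x * y) ^ (a : ℤ) = 1
    rw [zpow_natCast, ← hT]; group
  · refine frame y _ (p 1) (q 1) cy ?_
    rw [← mul_assoc]; exact s1
  · show S ^ (-1 : ℤ) * D ^ (b : ℤ) = 1
    rw [zpow_natCast, ← hS]; group

theorem hom_trivial₂ {a b : ℕ} (ha : 1 ≤ a) (hb : 1 ≤ b) {p q : Fin 2 → ℤ} (hq : ∀ i, 1 ≤ q i)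
    (hp : ∀ i, ((a : ℤ) + b - 1) * q i ≤ p i)
    (H : Type*) [Group H] (hH : LeftOrderable H)
    (f : TwoBridgeSurgeryGroup a b p q →* H) (g : TwoBridgeSurgeryGroup a b p q) : f g = 1 := by
  let φ : FreeGroup (Fin 2) →* H := f.comp (PresentedGroup.mk _)
  have rel : ∀ w ∈ ({X * W a b * X⁻¹ * (W a b)⁻¹,
      X ^ p 0 * (W a b * X ^ (-((a : ℤ) + b + 1))) ^ q 0,
      Y ^ p 1 * (W' a b * Y ^ (-((a : ℤ) + b + 1))) ^ q 1} : Set (FreeGroup (Fin 2))),
      φ w = 1 := by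
    intro w hw
    show f (PresentedGroup.mk _ w) = 1
    rw [PresentedGroup.one_of_mem hw, map_one]
  have e0 := rel (X * W a b * X⁻¹ * (W a b)⁻¹) (by simp)
  have e1 := rel (X ^ p 0 * (W a b * X ^ (-((a : ℤ) + b + 1))) ^ q 0) (by simp)
  have e2 := rel (Y ^ p 1 * (W' a b * Y ^ (-((a : ℤ) + b + 1))) ^ q 1) (by simp)
  simp only [W, W', U, V, map_mul, map_inv, map_zpow, map_pow] at e0 e1 e2
  have e0' : φ X * ((φ X * φ Y) ^ a * φ X *
      ((φ Y * (φ X * φ Y) ^ a)⁻¹ * ((φ X * φ Y) ^ a * φ X)) ^ b) =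
      (φ X * φ Y) ^ a * φ X *
      ((φ Y * (φ X * φ Y) ^ a)⁻¹ * ((φ X * φ Y) ^ a * φ X)) ^ b * φ X := by
    have := mul_inv_eq_one.mp e0
    exact mul_inv_eq_iff_eq_mul.mp this
  obtain ⟨T, S, R⟩ := rel_of_twoBridge e0' e1 e2
  have hx : φ X = 1 ∧ T = 1 ∧ φ Y = 1 ∧ S = 1 := by
    classical
    obtain ⟨_, lt, hlt, hinv⟩ := hH
    let _ : LinearOrder H := linearOrderOfSTO lt
    have hinv' : ∀ a b c : H, a ≤ b ↔ c * a ≤ c * b := by
      intro a b c
      show (a = b ∨ lt a b) ↔ (c * a = c * b ∨ lt (c * a) (c * b))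
      rw [mul_right_inj, ← hinv]
    refine Pool.Agent.TH744.LS.rel_trivial_cond hinv' (Or.inl ?_) R
    refine ⟨?_, ?_, ?_, ?_, ?_, ?_⟩
    · intro i; fin_cases i
      · exact hq 0
      · show (1 : ℤ) ≤ a; exact_mod_cast ha
      · exact hq 1
      · show (1 : ℤ) ≤ b; exact_mod_cast hb
    · show - q 0 ≤ p 0 - (a + b) * q 0
      linarith [hp 0]
    · show - q 1 ≤ p 1 - (a + b) * q 1
      linarith [hp 1]
    · show (-1 : ℤ) < 0; norm_num
    · show (-1 : ℤ) < 0; norm_num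
    · refine Or.inr ⟨?_, Or.inr (Or.inl ?_)⟩
      · show -(a : ℤ) ≤ -1; omega
      · show -(b : ℤ) ≤ -1; omega
  have hf : f = 1 := by
    apply PresentedGroup.ext
    intro i
    show φ (FreeGroup.of i) = 1
    fin_cases i
    · exact hx.1
    · exact hx.2.2.1
  rw [hf]; rfl

theorem not_lo {G : Type u} [Group G]
    (h : ∀ (H : Type u) [Group H], LeftOrderable H → ∀ f : G →* H, ∀ g, f g = 1) :
    ¬ LeftOrderable G := by
  intro hG
  obtain ⟨a, b, hab⟩ := hG.1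
  have key := h G hG (MonoidHom.id _)
  have h1 := key a
  have h2 := key b
  simp only [MonoidHom.id_apply] at h1 h2
  exact hab (by rw [h1, h2])

/-- Surgeries on the two-bridge links `C(2a, 1, 2b)` with both slopes at least `a + b - 1`. -/
theorem twoBridge (a b : ℕ) (p q : Fin 2 → ℤ) (ha : 1 ≤ a) (hb : 1 ≤ b)
    (hpq : ∀ i, 1 ≤ q i ∧ ((a : ℚ) + b - 1) ≤ (p i : ℚ) / q i) :
    ¬ LeftOrderable (TwoBridgeSurgeryGroup a b p q) ∧
    ∀ (H : Type u) [Group H], LeftOrderable H →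
      ∀ f : TwoBridgeSurgeryGroup a b p q →* H, ∀ g, f g = 1 := by
  have hp : ∀ i, ((a : ℤ) + b - 1) * q i ≤ p i := by
    intro i
    rw [← Pool.Agent.TH744.LS.le_slope (hpq i).1]
    push_cast; exact (hpq i).2
  exact ⟨not_lo fun H _ hH f g => hom_trivial₂ ha hb (fun i => (hpq i).1) hp H hH f g,
    fun H _ hH f g => hom_trivial₂ ha hb (fun i => (hpq i).1) hp H hH f g⟩

/-- Surgeries on the 4-chain link with slopes in the region (up to a rotation of the chain): the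
fundamental group is not left-orderable, and every homomorphism to a left-orderable group is
trivial. -/
theorem result (p q : Fin 4 → ℤ) (hq : ∀ i, 1 ≤ q i)
    (hr : Region (fun i => (p i : ℚ) / q i) ∨ Region (fun i => (p (i + 1) : ℚ) / q (i + 1))) :
    ¬ LeftOrderable (SurgeryGroup p q) ∧
    ∀ (H : Type u) [Group H], LeftOrderable H → ∀ f : SurgeryGroup p q →* H, ∀ g, f g = 1 :=
  ⟨not_lo fun H _ hH f g => hom_trivial p q hq hr H hH f g,
    fun H _ hH f g => hom_trivial p q hq hr H hH f g⟩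

end Pool.Agent.Results.MP_3d425c_gt.FourChainLink
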