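import Pool.Agent.TH821.HexGroup

set_option autoImplicit false

/-!
# Cyclic branched covers of degree at most 5 of positive genus one pretzel knots

For all `p, q, r ≥ 0` and `1 ≤ n ≤ 5`, every homomorphism from the fundamental group of the
`n`-fold cyclic branched cover of the pretzel knot `P(2p+1, 2q+1, 2r+1)` to a left-orderable
group is trivial.  In particular this fundamental group is not left-orderable.

Idea.  With suitable generators the group is generated by `x i`, `v i`, `w i` (`i` modulo `n`)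
with `x i * v i * w i = 1` and two families of relations, see `Pool.Agent.TH821.Hex.Rel`.
Let it act by order automorphisms on a complete linear order.  To every index `i` and
every point `y` belong three points `a, c, y`; if they are not all equal, their order is one of
six, and these six orders form a hexagon.  From `i` to `i + 1` the order stays the same or moves
one step around the hexagon, always in the same direction, or, from two of the six orders, two
steps; and it cannot stay the same for a whole period.  So the number of steps in a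
period is a positive multiple of six, which is impossible for `n = 3` (hence `n = 1`), leads to a
contradiction for `n = 4` (hence `n = 2`) after a change of the point `y`, and for `n = 5` leads to
an infinite strictly increasing sequence of nested intervals, which comes back to its start with
the wrong orientation.
-/

namespace Pool.Agent.Results.MP_3d425c_gt.PositivePretzelCovers

/-- A nontrivial group is left-orderable if it carries a strict total order that is invariant
under left multiplication. -/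
def LeftOrderable (G : Type*) [Group G] : Prop :=
  Nontrivial G ∧ ∃ lt : G → G → Prop, IsStrictTotalOrder G lt ∧
    ∀ a b c : G, lt a b ↔ lt (c * a) (c * b)

/-- One crossing of a vertical twist region: if the two strands, both oriented downwards, have
meridians `(x, y)` (left, right) above the crossing, then they have meridians `(y, y⁻¹ x y)`
below it.  The inverse is the crossing of the other handedness. -/
def crossing (G : Type*) [Group G] : Equiv.Perm (G × G) where
  toFun w := (w.2, w.2⁻¹ * w.1 * w.2)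
  invFun w := (w.1 * w.2 * w.1⁻¹, w.1)
  left_inv w := by ext <;> simp [mul_assoc]
  right_inv w := by ext <;> simp [mul_assoc]

/-- The meridian `a j` of the arc at the top of the diagram that joins the top right end of
column `j - 1` to the top left end of column `j`, oriented into column `j`. -/
def arc (j : Fin 3) : FreeGroup (Fin 3) := FreeGroup.of j

/-- The downward meridians of the two strands at the bottom of column `j`, which has `m j`
crossings; at the top they are `a j` and `(a (j+1))⁻¹`. -/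
def bottom (m : Fin 3 → ℤ) (j : Fin 3) : FreeGroup (Fin 3) × FreeGroup (Fin 3) :=
  (crossing (FreeGroup (Fin 3)) ^ m j) (arc j, (arc (j + 1))⁻¹)

/-- The bottom right end of column `j` is joined to the bottom left end of column `j + 1`. -/
def relator (m : Fin 3 → ℤ) (j : Fin 3) : FreeGroup (Fin 3) :=
  (bottom m j).2 * (bottom m (j + 1)).1

/-- The group of the pretzel link with columns of `m 0`, `m 1`, `m 2` crossings. -/
abbrev PretzelGroup (m : Fin 3 → ℤ) : Type := PresentedGroup (Set.range (relator m))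

/-- The quotient of the pretzel group by the `n`-th power of the meridian `a 0`. -/
abbrev OrbifoldGroup (m : Fin 3 → ℤ) (n : ℕ) : Type :=
  PresentedGroup (Set.range (relator m) ∪ {arc 0 ^ n})

/-- The columns `2p+1, 2q+1, 2r+1`. -/
def columns (p q r : ℕ) : Fin 3 → ℤ := ![2 * (p : ℤ) + 1, 2 * (q : ℤ) + 1, 2 * (r : ℤ) + 1]

section formulas
variable {G : Type*} [Group G]

theorem crossing_two (w : G × G) : (crossing G ^ (2 : ℤ)) w =
    ((w.1 * w.2)⁻¹ * w.1 * (w.1 * w.2), (w.1 * w.2)⁻¹ * w.2 * (w.1 * w.2)) := by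
  rw [show (2 : ℤ) = ((2 : ℕ) : ℤ) from rfl, zpow_natCast, pow_two]
  show crossing G (crossing G w) = _
  ext
  · show w.2⁻¹ * w.1 * w.2 = _
    simp only; group
  · show (w.2⁻¹ * w.1 * w.2)⁻¹ * w.2 * (w.2⁻¹ * w.1 * w.2) = _
    simp only; group

theorem crossing_even_nat (x y : G) (l : ℕ) : ((crossing G ^ (2 : ℤ)) ^ l) (x, y) =
    ((x * y) ^ (-(l : ℤ)) * x * (x * y) ^ (l : ℤ), (x * y) ^ (-(l : ℤ)) * y * (x * y) ^ (l : ℤ)) := by
  induction l with
  | zero => simp
  | succ l ih =>
    rw [pow_succ', Equiv.Perm.mul_apply, ih, crossing_two]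
    set P := x * y with hP
    have h1 : (P ^ (-(l : ℤ)) * x * P ^ (l : ℤ)) * (P ^ (-(l : ℤ)) * y * P ^ (l : ℤ)) = P := by
      calc _ = P ^ (-(l : ℤ)) * (x * y) * P ^ (l : ℤ) := by group
        _ = P := by rw [← hP]; group
    simp only [h1]
    push_cast
    ext
    · simp only; group
    · simp only; group

theorem crossing_even (x y : G) (l : ℤ) : (crossing G ^ (2 * l)) (x, y) =
    ((x * y) ^ (-l) * x * (x * y) ^ l, (x * y) ^ (-l) * y * (x * y) ^ l) := by
  rw [zpow_mul]
  rcases Int.eq_nat_or_neg l with ⟨l, rfl | rfl⟩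
  · rw [zpow_natCast]; exact crossing_even_nat x y l
  · rw [zpow_neg, zpow_natCast, Equiv.Perm.inv_eq_iff_eq, crossing_even_nat]
    set P := x * y with hP
    have h1 : (P ^ (-(-(l : ℤ))) * x * P ^ (-(l : ℤ))) * (P ^ (-(-(l : ℤ))) * y * P ^ (-(l : ℤ)))
        = P := by
      calc _ = P ^ ((l : ℤ)) * (x * y) * P ^ (-(l : ℤ)) := by group
        _ = P := by rw [← hP]; group
    simp only [h1]
    ext
    · simp only; group
    · simp only; group

theorem crossing_odd (x y : G) (l : ℤ) : (crossing G ^ (2 * l + 1)) (x, y) =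
    ((x * y) ^ (-l) * y * (x * y) ^ l, (x * y) ^ (-l - 1) * x * (x * y) ^ (l + 1)) := by
  rw [add_comm, zpow_one_add, Equiv.Perm.mul_apply, crossing_even]
  set P := x * y with hP
  have hy : y = x⁻¹ * P := by rw [hP]; group
  show ((P ^ (-l) * y * P ^ l), (P ^ (-l) * y * P ^ l)⁻¹ * (P ^ (-l) * x * P ^ l) *
    (P ^ (-l) * y * P ^ l)) = _
  ext
  · rfl
  · simp only
    calc (P ^ (-l) * y * P ^ l)⁻¹ * (P ^ (-l) * x * P ^ l) * (P ^ (-l) * y * P ^ l)
        = P ^ (-l) * (y⁻¹ * (x * y)) * P ^ l := by group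
      _ = P ^ (-l) * (y⁻¹ * P) * P ^ l := by rw [← hP]
      _ = P ^ (-l - 1) * (P * y⁻¹) * P ^ (l + 1) := by group
      _ = P ^ (-l - 1) * x * P ^ (l + 1) := by rw [hP]; group

end formulas

theorem bottom_odd (m : Fin 3 → ℤ) (j : Fin 3) (l : ℤ) (h : m j = 2 * l + 1) :
    bottom m j = ((arc j * (arc (j + 1))⁻¹) ^ (-l) * (arc (j + 1))⁻¹ *
        (arc j * (arc (j + 1))⁻¹) ^ l,
      (arc j * (arc (j + 1))⁻¹) ^ (-l - 1) * arc j * (arc j * (arc (j + 1))⁻¹) ^ (l + 1)) := by
  unfold bottom
  rw [h, crossing_odd]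

theorem rel_formula {G : Type*} [Group G] (μ : FreeGroup (Fin 3) →* G) (m : Fin 3 → ℤ)
    (j : Fin 3) (l l' : ℤ) (h : m j = 2 * l + 1) (h' : m (j + 1) = 2 * l' + 1)
    (hr : μ (relator m j) = 1) :
    (μ (arc j) * (μ (arc (j + 1)))⁻¹) ^ (-l - 1) * μ (arc j) *
      (μ (arc j) * (μ (arc (j + 1)))⁻¹) ^ (l + 1) *
      ((μ (arc (j + 1)) * (μ (arc (j + 1 + 1)))⁻¹) ^ (-l') * (μ (arc (j + 1 + 1)))⁻¹ *
        (μ (arc (j + 1)) * (μ (arc (j + 1 + 1)))⁻¹) ^ l') = 1 := by
  unfold relator at hr
  rw [bottom_odd m j l h, bottom_odd m (j + 1) l' h'] at hr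
  simpa only [map_mul, map_zpow, map_inv] using hr

/-- The relators of the orbifold group have degree `0`. -/
theorem degree_rel (m : Fin 3 → ℤ) (hm : ∀ j, Odd (m j)) (n : ℕ) :
    ∀ w ∈ Set.range (relator m) ∪ {arc 0 ^ n},
      FreeGroup.lift (fun _ : Fin 3 => (Multiplicative.ofAdd 1 : Multiplicative (ZMod n))) w
        = 1 := by
  rintro w (⟨j, rfl⟩ | rfl)
  · obtain ⟨l, hl⟩ := hm j
    obtain ⟨l', hl'⟩ := hm (j + 1)
    unfold relator
    rw [bottom_odd m j l hl, bottom_odd m (j + 1) l' hl']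
    simp [arc]
  · simp only [arc, map_pow, FreeGroup.lift_apply_of]
    rw [← ofAdd_nsmul]
    simp

/-- The homomorphism of the orbifold group to `Z/n` that sends all meridians `a j` to `1`
(for odd `m 0`, `m 1`, `m 2`, in which case the pretzel link is a knot). -/
def degree (m : Fin 3 → ℤ) (hm : ∀ j, Odd (m j)) (n : ℕ) :
    OrbifoldGroup m n →* Multiplicative (ZMod n) :=
  PresentedGroup.toGroup (degree_rel m hm n)

/-- The fundamental group of the `n`-fold cyclic branched cover of the pretzel knot with columns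
of `m 0`, `m 1`, `m 2` crossings: the kernel of the homomorphism to `Z/n` from the quotient
of the knot group by the `n`-th power of a meridian. -/
abbrev CoverGroup (m : Fin 3 → ℤ) (hm : ∀ j, Odd (m j)) (n : ℕ) : Type :=
  (degree m hm n).ker

theorem columns_odd (p q r : ℕ) : ∀ j, Odd (columns p q r j) := by
  intro j
  fin_cases j
  · exact ⟨p, rfl⟩
  · exact ⟨q, rfl⟩
  · exact ⟨r, rfl⟩

/-- `G` has no nontrivial homomorphism to a left-orderable group; in particular it is not
left-orderable. -/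
theorem not_lo {G : Type} [Group G]
    (h : ∀ (H : Type) [Group H], LeftOrderable H → ∀ f : G →* H, ∀ g, f g = 1) :
    ¬ LeftOrderable G := by
  intro hG
  obtain ⟨a, b, hab⟩ := hG.1
  have key := h G hG (MonoidHom.id _)
  exact hab ((key a).trans (key b).symm)

theorem lo_order {H : Type*} [Group H] (hH : LeftOrderable H) :
    ∃ _ : LinearOrder H, ∀ a b c : H, a ≤ b ↔ c * a ≤ c * b := by
  classical
  obtain ⟨_, lt, hlt, hinv⟩ := hH
  refine ⟨linearOrderOfSTO lt, ?_⟩
  intro a b c
  show (a = b ∨ lt a b) ↔ (c * a = c * b ∨ lt (c * a) (c * b))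
  rw [mul_right_inj, ← hinv]

theorem cover_trivial (p q r : ℕ) {n : ℕ} (hn : 0 < n) (hn5 : n ≤ 5) {H : Type*} [Group H]
    (hH : LeftOrderable H) (f : CoverGroup (columns p q r) (columns_odd p q r) n →* H)
    (g : CoverGroup (columns p q r) (columns_odd p q r) n) : f g = 1 := by
  obtain ⟨_, hinv⟩ := lo_order hH
  set m := columns p q r with hm
  set a : Fin 3 → OrbifoldGroup m n := fun j => PresentedGroup.of j with ha
  have hs : a 0 ^ n = 1 := by
    have h1 : PresentedGroup.mk (Set.range (relator m) ∪ {arc 0 ^ n}) (arc 0 ^ n) = 1 :=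
      PresentedGroup.one_of_mem (Or.inr rfl)
    rwa [map_pow] at h1
  set μ := PresentedGroup.mk (Set.range (relator m) ∪ {arc 0 ^ n}) with hμ
  have R0 : (a 0 * (a 1)⁻¹) ^ (-(p : ℤ) - 1) * a 0 * (a 0 * (a 1)⁻¹) ^ ((p : ℤ) + 1) *
      ((a 1 * (a 2)⁻¹) ^ (-(q : ℤ)) * (a 2)⁻¹ * (a 1 * (a 2)⁻¹) ^ (q : ℤ)) = 1 :=
    rel_formula μ m 0 p q rfl rfl (PresentedGroup.one_of_mem (Or.inl ⟨0, rfl⟩))
  have R1 : (a 1 * (a 2)⁻¹) ^ (-(q : ℤ) - 1) * a 1 * (a 1 * (a 2)⁻¹) ^ ((q : ℤ) + 1) *
      ((a 2 * (a 0)⁻¹) ^ (-(r : ℤ)) * (a 0)⁻¹ * (a 2 * (a 0)⁻¹) ^ (r : ℤ)) = 1 :=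
    rel_formula μ m 1 q r rfl rfl (PresentedGroup.one_of_mem (Or.inl ⟨1, rfl⟩))
  set s := a 0 with hs0
  set X := s * (a 1)⁻¹ with hX
  set V := a 1 * (a 2)⁻¹ with hV
  have e1 : a 1 = X⁻¹ * s := by rw [hX]; group
  have e2 : a 2 = (X * V)⁻¹ * s := by rw [hV, hX]; group
  have e3 : a 2 * s⁻¹ = (X * V)⁻¹ := by rw [e2]; group
  rw [e3] at R1
  -- the first relation
  have A : s * (X ^ p * X * (V ^ q)⁻¹) * s⁻¹ = X ^ p * X * (V ^ q)⁻¹ * (X * V)⁻¹ := by
    rw [e2] at R0
    calc s * (X ^ p * X * (V ^ q)⁻¹) * s⁻¹ = X ^ ((p : ℤ) + 1) * (X ^ (-(p : ℤ) - 1) * s *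
          X ^ ((p : ℤ) + 1) * (V ^ (-(q : ℤ)) * ((X * V)⁻¹ * s)⁻¹ * V ^ (q : ℤ))) *
          V ^ (-(q : ℤ)) * (X * V)⁻¹ := by
            rw [zpow_add_one, zpow_natCast, zpow_neg, zpow_natCast]; group
      _ = _ := by rw [R0, zpow_add_one, zpow_natCast, zpow_neg, zpow_natCast]; group
  -- the second relation
  have B : s * (V ^ q * V * ((X * V)⁻¹ ^ r)⁻¹) * s⁻¹ = X * (V ^ q * V * ((X * V)⁻¹ ^ r)⁻¹) := by
    rw [e1] at R1
    calc s * (V ^ q * V * ((X * V)⁻¹ ^ r)⁻¹) * s⁻¹ = X * V ^ ((q : ℤ) + 1) *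
          (V ^ (-(q : ℤ) - 1) * (X⁻¹ * s) * V ^ ((q : ℤ) + 1) * ((X * V)⁻¹ ^ (-(r : ℤ)) * s⁻¹ *
          (X * V)⁻¹ ^ (r : ℤ))) * (X * V)⁻¹ ^ (-(r : ℤ)) := by
            rw [zpow_add_one V, zpow_natCast V, zpow_neg ((X * V)⁻¹), zpow_natCast ((X * V)⁻¹)]
            group
      _ = _ := by
            rw [R1, zpow_add_one V, zpow_natCast V, zpow_neg ((X * V)⁻¹),
              zpow_natCast ((X * V)⁻¹)]
            group
  have hgen : ∀ K : Subgroup (OrbifoldGroup m n), s ∈ K → X ∈ K → V ∈ K → K = ⊤ := by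
    intro K h1 h2 h3
    have key : ∀ j, a j ∈ K := by
      intro j
      fin_cases j
      · exact h1
      · show a 1 ∈ K
        rw [e1]; exact mul_mem (inv_mem h2) h1
      · show a 2 ∈ K
        rw [e2]; exact mul_mem (inv_mem (mul_mem h2 h3)) h1
    rw [eq_top_iff, ← PresentedGroup.closure_range_of, Subgroup.closure_le]
    rintro _ ⟨j, rfl⟩
    exact key j
  have da : ∀ j, degree m (columns_odd p q r) n (a j) = Multiplicative.ofAdd 1 :=
    fun j => PresentedGroup.toGroup.of _
  have dX : degree m (columns_odd p q r) n X = 1 := by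
    rw [hX, map_mul, map_inv, hs0, da, da, mul_inv_cancel]
  have dV : degree m (columns_odd p q r) n V = 1 := by
    rw [hV, map_mul, map_inv, da, da, mul_inv_cancel]
  exact Pool.Agent.TH821.Hex.hom_trivial hn hn5 hs hgen _ (da 0) dX dV p q r A B hinv f g

theorem result (p q r n : ℕ) (hn : 0 < n) (hn5 : n ≤ 5) :
    ¬ LeftOrderable (CoverGroup (columns p q r) (columns_odd p q r) n) ∧
    ∀ (H : Type) [Group H], LeftOrderable H →
      ∀ f : CoverGroup (columns p q r) (columns_odd p q r) n →* H, ∀ g, f g = 1 := by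
  have h : ∀ (H : Type) [Group H], LeftOrderable H →
      ∀ f : CoverGroup (columns p q r) (columns_odd p q r) n →* H, ∀ g, f g = 1 :=
    fun H _ hH f g => cover_trivial p q r hn hn5 hH f g
  exact ⟨not_lo h, h⟩

end Pool.Agent.Results.MP_3d425c_gt.PositivePretzelCovers
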