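import Pool.Agent.TH821.HexThree

set_option autoImplicit false

/-!
# Threefold cyclic branched covers of positive pretzel links with at most five columns

For `1 ≤ k ≤ 5` and `p 0, …, p (k-1) ≥ 0`, every homomorphism from the fundamental group of the
threefold cyclic branched cover of the pretzel knot or link `P(2 p 0 + 1, …, 2 p (k-1) + 1)` to a
left-orderable group is trivial.  In particular this fundamental group is not left-orderable.
For `k = 5` these are alternating knots of genus two.

Idea.  With suitable generators the group has the presentation of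
`Pool.Agent.TH821.Hex.Rel`, a cyclic chain of length `k`, one stage for each column, with three
generators in each stage, the lifts of a loop around the band of that column.  So the
columns and the sheets change places in comparison with the `n`-fold covers of pretzel knots with
three columns, and the parameters depend on the stage.  Let the group act by order automorphisms
on a complete linear order.  To every stage and every point `y` belong three points `a, c, y`;
their order is one of six, and these form a hexagon.  From one stage to the next the order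
stays the same or moves one step around the hexagon, always in the same direction, or, from two
of the six orders, two steps.  A winding argument shows that this is impossible if `k ≤ 5`.
-/

namespace Pool.Agent.Results.MP_3d425c_gt.ThreefoldPretzelCovers

/-- A nontrivial group is left-orderable if it carries a strict total order that is invariant
under left multiplication. -/
def LeftOrderable (G : Type*) [Group G] : Prop :=
  Nontrivial G ∧ ∃ lt : G → G → Prop, IsStrictTotalOrder G lt ∧
    ∀ a b c : G, lt a b ↔ lt (c * a) (c * b)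

/-- One crossing of a vertical twist region: if the two strands, both oriented downwards, have
meridians `(x, y)` (left, right) above the crossing, then they have meridians `(y, y⁻¹ x y)`
below it.  The inverse is the crossing of the other handedness. -/
def crossing (G : Type*) [Group G] : Equiv.Perm (G × G) where
  toFun w := (w.2, w.2⁻¹ * w.1 * w.2)
  invFun w := (w.1 * w.2 * w.1⁻¹, w.1)
  left_inv w := by ext <;> simp [mul_assoc]
  right_inv w := by ext <;> simp [mul_assoc]

section defs
variable {k : ℕ}

/-- The meridian `a j` of the arc at the top of the diagram that joins the top right end of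
column `j - 1` to the top left end of column `j` (`j` modulo `k`), oriented into column `j`. -/
def arc (j : ZMod k) : FreeGroup (ZMod k) := FreeGroup.of j

/-- The downward meridians of the two strands at the bottom of column `j`, which has `m j`
crossings; at the top they are `a j` and `(a (j+1))⁻¹`. -/
def bottom (m : ZMod k → ℤ) (j : ZMod k) : FreeGroup (ZMod k) × FreeGroup (ZMod k) :=
  (crossing (FreeGroup (ZMod k)) ^ m j) (arc j, (arc (j + 1))⁻¹)

/-- The bottom right end of column `j` is joined to the bottom left end of column `j + 1`. -/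
def relator (m : ZMod k → ℤ) (j : ZMod k) : FreeGroup (ZMod k) :=
  (bottom m j).2 * (bottom m (j + 1)).1

/-- The group of the pretzel link with columns of `m 0`, …, `m (k-1)` crossings. -/
abbrev PretzelGroup (m : ZMod k → ℤ) : Type := PresentedGroup (Set.range (relator m))

/-- The quotient of the pretzel group by the `n`-th powers of the meridians `a j`. -/
abbrev OrbifoldGroup (m : ZMod k → ℤ) (n : ℕ) : Type :=
  PresentedGroup (Set.range (relator m) ∪ Set.range fun j => arc j ^ n)

/-- The columns `2 p j + 1`. -/
def columns (p : ZMod k → ℕ) : ZMod k → ℤ := fun j => 2 * (p j : ℤ) + 1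

end defs

section formulas
variable {G : Type*} [Group G]

theorem crossing_two (w : G × G) : (crossing G ^ (2 : ℤ)) w =
    ((w.1 * w.2)⁻¹ * w.1 * (w.1 * w.2), (w.1 * w.2)⁻¹ * w.2 * (w.1 * w.2)) := by
  rw [show (2 : ℤ) = ((2 : ℕ) : ℤ) from rfl, zpow_natCast, pow_two]
  show crossing G (crossing G w) = _
  ext
  · show w.2⁻¹ * w.1 * w.2 = _
    simp only; group
  · show (w.2⁻¹ * w.1 * w.2)⁻¹ * w.2 * (w.2⁻¹ * w.1 * w.2) = _
    simp only; group

theorem crossing_even_nat (x y : G) (l : ℕ) : ((crossing G ^ (2 : ℤ)) ^ l) (x, y) =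
    ((x * y) ^ (-(l : ℤ)) * x * (x * y) ^ (l : ℤ), (x * y) ^ (-(l : ℤ)) * y * (x * y) ^ (l : ℤ)) := by
  induction l with
  | zero => simp
  | succ l ih =>
    rw [pow_succ', Equiv.Perm.mul_apply, ih, crossing_two]
    set P := x * y with hP
    have h1 : (P ^ (-(l : ℤ)) * x * P ^ (l : ℤ)) * (P ^ (-(l : ℤ)) * y * P ^ (l : ℤ)) = P := by
      calc _ = P ^ (-(l : ℤ)) * (x * y) * P ^ (l : ℤ) := by group
        _ = P := by rw [← hP]; group
    simp only [h1]
    push_cast
    ext
    · simp only; group
    · simp only; group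

theorem crossing_even (x y : G) (l : ℤ) : (crossing G ^ (2 * l)) (x, y) =
    ((x * y) ^ (-l) * x * (x * y) ^ l, (x * y) ^ (-l) * y * (x * y) ^ l) := by
  rw [zpow_mul]
  rcases Int.eq_nat_or_neg l with ⟨l, rfl | rfl⟩
  · rw [zpow_natCast]; exact crossing_even_nat x y l
  · rw [zpow_neg, zpow_natCast, Equiv.Perm.inv_eq_iff_eq, crossing_even_nat]
    set P := x * y with hP
    have h1 : (P ^ (-(-(l : ℤ))) * x * P ^ (-(l : ℤ))) * (P ^ (-(-(l : ℤ))) * y * P ^ (-(l : ℤ)))
        = P := by
      calc _ = P ^ ((l : ℤ)) * (x * y) * P ^ (-(l : ℤ)) := by group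
        _ = P := by rw [← hP]; group
    simp only [h1]
    ext
    · simp only; group
    · simp only; group

theorem crossing_odd (x y : G) (l : ℤ) : (crossing G ^ (2 * l + 1)) (x, y) =
    ((x * y) ^ (-l) * y * (x * y) ^ l, (x * y) ^ (-l - 1) * x * (x * y) ^ (l + 1)) := by
  rw [add_comm, zpow_one_add, Equiv.Perm.mul_apply, crossing_even]
  set P := x * y with hP
  have hy : y = x⁻¹ * P := by rw [hP]; group
  show ((P ^ (-l) * y * P ^ l), (P ^ (-l) * y * P ^ l)⁻¹ * (P ^ (-l) * x * P ^ l) *
    (P ^ (-l) * y * P ^ l)) = _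
  ext
  · rfl
  · simp only
    calc (P ^ (-l) * y * P ^ l)⁻¹ * (P ^ (-l) * x * P ^ l) * (P ^ (-l) * y * P ^ l)
        = P ^ (-l) * (y⁻¹ * (x * y)) * P ^ l := by group
      _ = P ^ (-l) * (y⁻¹ * P) * P ^ l := by rw [← hP]
      _ = P ^ (-l - 1) * (P * y⁻¹) * P ^ (l + 1) := by group
      _ = P ^ (-l - 1) * x * P ^ (l + 1) := by rw [hP]; group

end formulas

section links
variable {k : ℕ}

theorem bottom_odd (m : ZMod k → ℤ) (j : ZMod k) (l : ℤ) (h : m j = 2 * l + 1) :
    bottom m j = ((arc j * (arc (j + 1))⁻¹) ^ (-l) * (arc (j + 1))⁻¹ *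
        (arc j * (arc (j + 1))⁻¹) ^ l,
      (arc j * (arc (j + 1))⁻¹) ^ (-l - 1) * arc j * (arc j * (arc (j + 1))⁻¹) ^ (l + 1)) := by
  unfold bottom
  rw [h, crossing_odd]

theorem rel_formula {G : Type*} [Group G] (μ : FreeGroup (ZMod k) →* G) (m : ZMod k → ℤ)
    (j : ZMod k) (l l' : ℤ) (h : m j = 2 * l + 1) (h' : m (j + 1) = 2 * l' + 1)
    (hr : μ (relator m j) = 1) :
    (μ (arc j) * (μ (arc (j + 1)))⁻¹) ^ (-l - 1) * μ (arc j) *
      (μ (arc j) * (μ (arc (j + 1)))⁻¹) ^ (l + 1) *
      ((μ (arc (j + 1)) * (μ (arc (j + 1 + 1)))⁻¹) ^ (-l') * (μ (arc (j + 1 + 1)))⁻¹ *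
        (μ (arc (j + 1)) * (μ (arc (j + 1 + 1)))⁻¹) ^ l') = 1 := by
  unfold relator at hr
  rw [bottom_odd m j l h, bottom_odd m (j + 1) l' h'] at hr
  simpa only [map_mul, map_zpow, map_inv] using hr

/-- The relators of the orbifold group have degree `0`. -/
theorem degree_rel (m : ZMod k → ℤ) (hm : ∀ j, Odd (m j)) (n : ℕ) :
    ∀ w ∈ Set.range (relator m) ∪ Set.range (fun j => arc j ^ n),
      FreeGroup.lift (fun _ : ZMod k => (Multiplicative.ofAdd 1 : Multiplicative (ZMod n))) w
        = 1 := by
  rintro w (⟨j, rfl⟩ | ⟨j, rfl⟩)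
  · obtain ⟨l, hl⟩ := hm j
    obtain ⟨l', hl'⟩ := hm (j + 1)
    unfold relator
    rw [bottom_odd m j l hl, bottom_odd m (j + 1) l' hl']
    simp [arc]
  · simp only [arc, map_pow, FreeGroup.lift_apply_of]
    rw [← ofAdd_nsmul]
    simp

/-- The homomorphism of the orbifold group to `Z/n` that sends all meridians `a j` to `1`
(for odd columns `m j`). -/
def degree (m : ZMod k → ℤ) (hm : ∀ j, Odd (m j)) (n : ℕ) :
    OrbifoldGroup m n →* Multiplicative (ZMod n) :=
  PresentedGroup.toGroup (degree_rel m hm n)

/-- The fundamental group of the `n`-fold cyclic branched cover of the pretzel knot or link with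
columns of `m 0`, …, `m (k-1)` crossings: the kernel of the homomorphism to `Z/n` from the quotient
of the link group by the `n`-th powers of the meridians. -/
abbrev CoverGroup (m : ZMod k → ℤ) (hm : ∀ j, Odd (m j)) (n : ℕ) : Type :=
  (degree m hm n).ker

theorem columns_odd (p : ZMod k → ℕ) : ∀ j, Odd (columns p j) := fun j => ⟨p j, rfl⟩

end links

/-- `G` has no nontrivial homomorphism to a left-orderable group; in particular it is not
left-orderable. -/
theorem not_lo {G : Type} [Group G]
    (h : ∀ (H : Type) [Group H], LeftOrderable H → ∀ f : G →* H, ∀ g, f g = 1) :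
    ¬ LeftOrderable G := by
  intro hG
  obtain ⟨a, b, hab⟩ := hG.1
  have key := h G hG (MonoidHom.id _)
  exact hab ((key a).trans (key b).symm)

theorem lo_order {H : Type*} [Group H] (hH : LeftOrderable H) :
    ∃ _ : LinearOrder H, ∀ a b c : H, a ≤ b ↔ c * a ≤ c * b := by
  classical
  obtain ⟨_, lt, hlt, hinv⟩ := hH
  refine ⟨linearOrderOfSTO lt, ?_⟩
  intro a b c
  show (a = b ∨ lt a b) ↔ (c * a = c * b ∨ lt (c * a) (c * b))
  rw [mul_right_inj, ← hinv]

theorem cover_trivial {k : ℕ} (hk : 0 < k) (hk5 : k ≤ 5) (p : ZMod k → ℕ) {H : Type*} [Group H]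
    (hH : LeftOrderable H) (f : CoverGroup (columns p) (columns_odd p) 3 →* H)
    (g : CoverGroup (columns p) (columns_odd p) 3) : f g = 1 := by
  obtain ⟨_, hinv⟩ := lo_order hH
  set m := columns p with hm
  set μ := PresentedGroup.mk (Set.range (relator m) ∪ Set.range fun j : ZMod k => arc j ^ 3)
    with hμ
  have ha : ∀ b : ZMod k, (PresentedGroup.of b : OrbifoldGroup m 3) ^ 3 = 1 := by
    intro b
    have h1 : μ (arc b ^ 3) = 1 := PresentedGroup.one_of_mem (Or.inr ⟨b, rfl⟩)
    rwa [map_pow] at h1
  exact Pool.Agent.TH821.Three.hom_trivial hk hk5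
    (a := fun b : ZMod k => (PresentedGroup.of b : OrbifoldGroup m 3)) ha
    (PresentedGroup.closure_range_of _) (degree m (columns_odd p) 3)
    (fun b => PresentedGroup.toGroup.of _) p
    (fun b => rel_formula μ m b (p b) (p (b + 1)) rfl rfl
      (PresentedGroup.one_of_mem (Or.inl ⟨b, rfl⟩))) hinv f g

theorem result (k : ℕ) (hk : 0 < k) (hk5 : k ≤ 5) (p : ZMod k → ℕ) :
    ¬ LeftOrderable (CoverGroup (columns p) (columns_odd p) 3) ∧
    ∀ (H : Type) [Group H], LeftOrderable H →
      ∀ f : CoverGroup (columns p) (columns_odd p) 3 →* H, ∀ g, f g = 1 := by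
  have h : ∀ (H : Type) [Group H], LeftOrderable H →
      ∀ f : CoverGroup (columns p) (columns_odd p) 3 →* H, ∀ g, f g = 1 :=
    fun H _ hH f g => cover_trivial hk hk5 p hH f g
  exact ⟨not_lo h, h⟩

end Pool.Agent.Results.MP_3d425c_gt.ThreefoldPretzelCovers
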